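import Pool.Agent.Helper115.PSq

set_option autoImplicit false

namespace Pool.Agent.Results.MP_45c189_gt.NoPalaisSmale

open Set Manifold
open Pool.Agent.Helper115.PS

/-- Let `s > 2` and let `Ω` be any `C¹` manifold (modelled on a normed space, for instance a Banach
or Hilbert space) of finite energy curves in `𝒟^s_μ(T²)` from the identity to the identity, which
contains all smooth curves, on which the positions of particles depend continuously on the curve and
the energy is `C¹`, with a Finsler structure `N` which is complete, or whose length controls the
time average of the `L²` distance of curves.  Then the energy does not satisfy the Palais-Smale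
condition on `Ω`. -/
theorem result {s : ℝ} (hs : 2 < s)
    {E : Type*} [NormedAddCommGroup E] [NormedSpace ℝ E]
    {Ω : Type*} [TopologicalSpace Ω] [ChartedSpace E Ω] [IsManifold 𝓘(ℝ, E) 1 Ω]
    (γ : Ω → ℝ → SDiff s) (N : Ω → E → ℝ)
    (h : IsCurveManifold s (Homeomorph.refl T2) γ N)
    (hN : IsCompleteFinsler N ∨ ControlsL2 γ N) :
    ¬ PalaisSmale N (fun x => energy (γ x)) := by
  rcases hN with hN | hN
  · exact not_ps_of_complete h (by linarith) hN
  · exact not_ps_of_controls h (by linarith) hN

end Pool.Agent.Results.MP_45c189_gt.NoPalaisSmale
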